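import Mathlib

/-!
# Finite continued fractions with the last digit first
-/

set_option autoImplicit false

namespace Q54.GG

/-- The value of the continued fraction `[0; a_1, ..., a_n + t]`, where the list is
`a_n, ..., a_1`. -/
noncomputable def ps : List ℕ → ℝ → ℝ
  | [], t => t
  | a :: u, t => ps u (1 / (a + t))

/-- The denominators of the last two convergents. -/
def qr : List ℕ → ℕ × ℕ
  | [] => (1, 0)
  | a :: u => ((qr u).1 * a + (qr u).2, (qr u).1)

/-- the denominator of the last convergent -/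
def q (u : List ℕ) : ℝ := ((qr u).1 : ℝ)

/-- the denominator of the convergent before the last one -/
def r (u : List ℕ) : ℝ := ((qr u).2 : ℝ)

theorem q_nil : q [] = 1 := by simp [q, qr]

theorem r_nil : r [] = 0 := by simp [r, qr]

theorem q_cons (a : ℕ) (u : List ℕ) : q (a :: u) = q u * a + r u := by simp [q, r, qr]

theorem r_cons (a : ℕ) (u : List ℕ) : r (a :: u) = q u := by simp [q, r, qr]

theorem r_nonneg (u : List ℕ) : 0 ≤ r u := Nat.cast_nonneg _

theorem q_bounds {u : List ℕ} (hu : ∀ a ∈ u, 1 ≤ a) : 1 ≤ q u ∧ r u ≤ q u := by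
  induction u with
  | nil => rw [q_nil, r_nil]; norm_num
  | cons a u ih =>
    obtain ⟨h1, h2⟩ := ih (fun b hb => hu b (List.mem_cons_of_mem _ hb))
    have ha : (1 : ℝ) ≤ a := by exact_mod_cast hu a List.mem_cons_self
    have h3 := r_nonneg u
    rw [q_cons, r_cons]
    constructor
    · nlinarith
    · nlinarith

theorem ps_formula {u : List ℕ} (hu : ∀ a ∈ u, 1 ≤ a) : ∀ {t : ℝ}, 0 ≤ t →
    ps u t = ps u 0 + (-1) ^ u.length * t / (q u * (q u + r u * t)) := by
  induction u with
  | nil =>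
    intro t _
    rw [q_nil, r_nil]
    simp [ps]
  | cons a u ih =>
    intro t ht
    have hu' : ∀ b ∈ u, 1 ≤ b := fun b hb => hu b (List.mem_cons_of_mem _ hb)
    have ha : (1 : ℝ) ≤ a := by exact_mod_cast hu a List.mem_cons_self
    obtain ⟨h1, h2⟩ := q_bounds hu'
    have h3 := r_nonneg u
    have ih' := fun {t : ℝ} => @ih hu' t
    change ps u (1 / (a + t)) = ps u (1 / (a + 0)) + _
    rw [ih' (by positivity), ih' (t := 1 / ((a : ℝ) + 0)) (by positivity), q_cons, r_cons,
      List.length_cons, pow_succ]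
    have h4 : (a : ℝ) + t ≠ 0 := by positivity
    have h5 : q u ≠ 0 := by positivity
    have h6 : q u * (a + t) + r u ≠ 0 := by positivity
    have h7 : q u * a + r u ≠ 0 := by positivity
    have h8 : q u * a + r u + q u * t ≠ 0 := by positivity
    have h9 : (a : ℝ) ≠ 0 := by positivity
    have e1 : (-1) ^ u.length * (1 / ((a : ℝ) + t)) / (q u * (q u + r u * (1 / (a + t)))) =
        (-1) ^ u.length / (q u * (q u * a + r u + q u * t)) := by
      field_simp
      ring
    have e2 : (-1) ^ u.length * (1 / ((a : ℝ) + 0)) / (q u * (q u + r u * (1 / (a + 0)))) =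
        (-1) ^ u.length / (q u * (q u * a + r u)) := by
      rw [add_zero]
      field_simp
    rw [e1, e2]
    field_simp
    ring

theorem ps_cons_zero {u : List ℕ} (hu : ∀ a ∈ u, 1 ≤ a) {a : ℕ} (ha : 1 ≤ a) :
    ps (a :: u) 0 = ps u 0 + (-1) ^ u.length / (q u * q (a :: u)) := by
  have ha' : (1 : ℝ) ≤ a := by exact_mod_cast ha
  obtain ⟨h1, h2⟩ := q_bounds hu
  have h3 := r_nonneg u
  change ps u (1 / (a + 0)) = _
  rw [ps_formula hu (by positivity), q_cons, add_zero]
  have h7 : q u * a + r u ≠ 0 := by positivity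
  have h9 : (a : ℝ) ≠ 0 := by positivity
  field_simp

theorem ps_rat (u : List ℕ) : ∀ t : ℚ, ∃ c : ℚ, ps u t = c := by
  induction u with
  | nil => intro t; exact ⟨t, rfl⟩
  | cons a u ih =>
    intro t
    obtain ⟨c, hc⟩ := ih (1 / (a + t))
    refine ⟨c, ?_⟩
    rw [← hc]
    change ps u _ = _
    push_cast
    rfl

theorem ne_of_irrational {x : ℝ} (hx : Irrational x) (u v : List ℕ) :
    x - ps u 0 - ps v 0 ≠ 0 := by
  intro h
  obtain ⟨c, hc⟩ := ps_rat u 0
  obtain ⟨d, hd⟩ := ps_rat v 0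
  rw [Rat.cast_zero] at hc hd
  apply hx
  refine ⟨c + d, ?_⟩
  push_cast
  rw [← hc, ← hd]
  linarith

/-- the effect of one more digit on the defect -/
theorem move {s q r Q δ E a : ℝ} (hs : s * s = 1) (hq : 1 ≤ q) (hr : 0 ≤ r) (hQ : 1 ≤ Q)
    (hE : 0 < E) (ha : 0 < a) (h : s * δ * q * Q * E = 1) :
    s * (δ - s / (q * (q * a + r))) * (q * a + r) * Q * E = a - (E * Q - r) / q := by
  have h1 : q ≠ 0 := by positivity
  have h2 : q * a + r ≠ 0 := by positivity
  have h3 : s * δ = 1 / (q * Q * E) := by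
    field_simp
    linarith
  have h4 : s * (δ - s / (q * (q * a + r))) = 1 / (q * Q * E) - 1 / (q * (q * a + r)) := by
    rw [mul_sub, h3, ← mul_div_assoc, hs]
  rw [h4]
  field_simp
  ring

end Q54.GG
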