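import Pool.Agent.Q54.GG.Step

/-!
# The limit of the algorithm
-/

set_option autoImplicit false

namespace Q54.GG

/-- The value of the continued fraction `[0; a_1, ..., a_n + t]`, where the list is
`a_1, ..., a_n`. -/
noncomputable def ph : List ℕ → ℝ → ℝ
  | [], t => t
  | a :: w, t => 1 / (a + ph w t)

theorem ph_append (w : List ℕ) (a : ℕ) (t : ℝ) : ph (w ++ [a]) t = ph w (1 / (a + t)) := by
  induction w with
  | nil => rfl
  | cons b w ih =>
    change 1 / ((b : ℝ) + ph (w ++ [a]) t) = 1 / (b + ph w (1 / (a + t)))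
    rw [ih]

theorem ps_eq_ph (u : List ℕ) : ∀ t : ℝ, ps u t = ph u.reverse t := by
  induction u with
  | nil => intro t; rfl
  | cons a u ih =>
    intro t
    rw [List.reverse_cons, ph_append, ← ih]
    rfl

theorem ph_bounds {w : List ℕ} (hw : ∀ a ∈ w, 1 ≤ a) {t : ℝ} (h0 : 0 ≤ t) (h1 : t ≤ 1) :
    0 ≤ ph w t ∧ ph w t ≤ 1 ∧ (1 ≤ w.length → 0 < ph w t) ∧ (2 ≤ w.length → ph w t < 1) := by
  induction w with
  | nil => exact ⟨h0, h1, by simp, by simp⟩
  | cons a w ih =>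
    have ha : (1 : ℝ) ≤ a := by exact_mod_cast hw a List.mem_cons_self
    obtain ⟨i1, i2, i3, i4⟩ := ih (fun b hb => hw b (List.mem_cons_of_mem _ hb))
    have h2 : 0 < (a : ℝ) + ph w t := by linarith
    refine ⟨?_, ?_, fun _ => ?_, fun h => ?_⟩
    · change 0 ≤ 1 / ((a : ℝ) + ph w t)
      positivity
    · change 1 / ((a : ℝ) + ph w t) ≤ 1
      rw [div_le_one h2]
      linarith
    · change 0 < 1 / ((a : ℝ) + ph w t)
      positivity
    · change 1 / ((a : ℝ) + ph w t) < 1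
      rw [div_lt_one h2]
      have := i3 (by simpa using h)
      linarith

/-- the Gauss map -/
noncomputable def T (y : ℝ) : ℝ := Int.fract (1 / y)

theorem T_of {a : ℕ} {h : ℝ} (h0 : 0 ≤ h) (h1 : h < 1) : T (1 / (a + h)) = h := by
  rw [T, one_div_one_div, Int.fract_natCast_add]
  exact Int.fract_eq_self.2 ⟨h0, h1⟩

theorem floor_of {a : ℕ} {h : ℝ} (h0 : 0 ≤ h) (h1 : h < 1) : ⌊1 / (1 / ((a : ℝ) + h))⌋ = a := by
  rw [one_div_one_div, Int.floor_eq_iff]
  constructor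
  · push_cast
    linarith
  · push_cast
    linarith

theorem T_iter (n : ℕ) : ∀ {w : List ℕ} (_ : ∀ a ∈ w, 1 ≤ a) {t : ℝ} (_ : 0 ≤ t) (_ : t ≤ 1)
    (_ : n + 2 ≤ w.length), T^[n] (ph w t) = ph (w.drop n) t := by
  induction n with
  | zero =>
    intro w _ t _ _ _
    rfl
  | succ n ih =>
    intro w hw t h0 h1 hn
    cases w with
    | nil => simp at hn
    | cons a w =>
      have hw' : ∀ b ∈ w, 1 ≤ b := fun b hb => hw b (List.mem_cons_of_mem _ hb)
      have hl : n + 2 ≤ w.length := by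
        rw [List.length_cons] at hn
        omega
      obtain ⟨i1, i2, i3, i4⟩ := ph_bounds hw' h0 h1
      rw [Function.iterate_succ_apply, List.drop_succ_cons]
      change T^[n] (T (1 / ((a : ℝ) + ph w t))) = _
      rw [T_of i1 (i4 (by omega))]
      exact ih hw' h0 h1 hl

theorem digit {w : List ℕ} (hw : ∀ a ∈ w, 1 ≤ a) {t : ℝ} (h0 : 0 ≤ t) (h1 : t ≤ 1) {n : ℕ}
    (hn : n + 3 ≤ w.length) : ⌊1 / (T^[n] (ph w t))⌋ = (w[n] : ℕ) := by
  rw [T_iter n hw h0 h1 (by omega), List.drop_eq_getElem_cons (by omega)]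
  have hw' : ∀ b ∈ w.drop (n + 1), 1 ≤ b := fun b hb => hw b (List.mem_of_mem_drop hb)
  obtain ⟨i1, i2, i3, i4⟩ := ph_bounds hw' h0 h1
  exact floor_of i1 (i4 (by rw [List.length_drop]; omega))

theorem ps_mem (u : List ℕ) (z : List ℕ) : ∀ (_ : ∀ a ∈ z, 1 ≤ a) {t : ℝ}
    (_ : t ∈ Set.Icc (0 : ℝ) 1), ∃ t' ∈ Set.Icc (0 : ℝ) 1, ps (z ++ u) t = ps u t' := by
  induction z with
  | nil => intro _ t ht; exact ⟨t, ht, rfl⟩
  | cons a z ih =>
    intro hz t ht
    have ha : (1 : ℝ) ≤ a := by exact_mod_cast hz a List.mem_cons_self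
    have h2 : 0 < (a : ℝ) + t := by linarith [ht.1]
    obtain ⟨t', ht', h⟩ := ih (fun b hb => hz b (List.mem_cons_of_mem _ hb)) (t := 1 / (a + t))
      ⟨by positivity, by rw [div_le_one h2]; linarith [ht.1]⟩
    exact ⟨t', ht', h⟩

theorem ps_cont {u : List ℕ} (hu : ∀ a ∈ u, 1 ≤ a) : ContinuousOn (ps u) (Set.Icc 0 1) := by
  induction u with
  | nil => exact continuousOn_id
  | cons a u ih =>
    have ha : (1 : ℝ) ≤ a := by exact_mod_cast hu a List.mem_cons_self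
    have h1 : ContinuousOn (fun t : ℝ => 1 / ((a : ℝ) + t)) (Set.Icc 0 1) := by
      refine ContinuousOn.div continuousOn_const (by fun_prop) ?_
      intro t ht
      have := ht.1
      positivity
    exact (ih (fun b hb => hu b (List.mem_cons_of_mem _ hb))).comp h1 (by
      intro t ht
      have h2 : 0 < (a : ℝ) + t := by linarith [ht.1]
      exact ⟨by positivity, by rw [div_le_one h2]; linarith [ht.1]⟩)

/-- the set of the representations with given first digits -/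
def fib (x : ℝ) (u v : List ℕ) : Set (ℝ × ℝ) :=
  (fun p : ℝ × ℝ => (ps u p.1, ps v p.2)) '' (Set.Icc 0 1 ×ˢ Set.Icc 0 1) ∩
    {p | p.1 + p.2 = x}

theorem fib_compact (x : ℝ) {u v : List ℕ} (hu : ∀ a ∈ u, 1 ≤ a) (hv : ∀ a ∈ v, 1 ≤ a) :
    IsCompact (fib x u v) := by
  refine IsCompact.inter_right ?_ (isClosed_eq (by fun_prop) continuous_const)
  refine (isCompact_Icc.prod isCompact_Icc).image_of_continuousOn ?_
  exact ((ps_cont hu).comp continuousOn_fst (fun p hp => hp.1)).prodMk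
    ((ps_cont hv).comp continuousOn_snd (fun p hp => hp.2))

theorem fib_symm {x : ℝ} {u v : List ℕ} (h : (fib x u v).Nonempty) : (fib x v u).Nonempty := by
  obtain ⟨p, ⟨s, hs, rfl⟩, h2⟩ := h
  refine ⟨(ps v s.2, ps u s.1), ⟨(s.2, s.1), ⟨hs.2, hs.1⟩, rfl⟩, ?_⟩
  change ps v s.2 + ps u s.1 = x
  rw [add_comm]
  exact h2

theorem fib_nonempty {x : ℝ} {u v : List ℕ} {E : ℝ} (h : Same x u v E) :
    (fib x u v).Nonempty := by
  have main : ∀ {u v : List ℕ}, Same x u v E → q u ≤ q v → (fib x u v).Nonempty := by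
    intro u v h hq
    obtain ⟨hu, hv, par, hE, key⟩ := h
    obtain ⟨h1, h2⟩ := q_bounds hu
    obtain ⟨h3, h4⟩ := q_bounds hv
    have hr := r_nonneg u
    have hs2 := sign_sq u.length
    have hd : 0 < E * q v - r u := by nlinarith
    have ht : q u / (E * q v - r u) ∈ Set.Icc (0 : ℝ) 1 :=
      ⟨by positivity, by rw [div_le_one hd]; nlinarith⟩
    refine ⟨(ps u (q u / (E * q v - r u)), ps v 0),
      ⟨(q u / (E * q v - r u), 0), ⟨ht, by norm_num⟩, rfl⟩, ?_⟩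
    change ps u (q u / (E * q v - r u)) + ps v 0 = x
    have h5 : x - ps u 0 - ps v 0 = (-1) ^ u.length / (q u * q v * E) := by
      have h6 : q u * q v * E ≠ 0 := by positivity
      rw [eq_div_iff h6]
      calc (x - ps u 0 - ps v 0) * (q u * q v * E) = ((-1) ^ u.length * (-1) ^ u.length) *
            ((x - ps u 0 - ps v 0) * (q u * q v * E)) := by rw [hs2, one_mul]
        _ = (-1) ^ u.length * ((-1) ^ u.length * (x - ps u 0 - ps v 0) * q u * q v * E) := by ring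
        _ = (-1) ^ u.length := by rw [key, mul_one]
    rw [ps_formula hu ht.1]
    have h7 : (-1) ^ u.length * (q u / (E * q v - r u)) /
        (q u * (q u + r u * (q u / (E * q v - r u)))) = (-1) ^ u.length / (q u * q v * E) := by
      have h8 : q u ≠ 0 := by positivity
      have h9 : q u * (q u + r u * (q u / (E * q v - r u))) =
          q u * q u * (E * q v) / (E * q v - r u) := by
        field_simp
        ring
      rw [h9]
      field_simp
    rw [h7, ← h5]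
    ring
  rcases le_total (q u) (q v) with hq | hq
  · exact main h hq
  · exact fib_symm (main h.symm hq)

theorem fib_mono (x : ℝ) {u v z y : List ℕ}
    (hz : ∀ a ∈ z, 1 ≤ a) (hy : ∀ a ∈ y, 1 ≤ a) : fib x (z ++ u) (y ++ v) ⊆ fib x u v := by
  rintro p ⟨⟨s, hs, rfl⟩, h2⟩
  obtain ⟨s1, h3, h4⟩ := ps_mem u z hz hs.1
  obtain ⟨s2, h5, h6⟩ := ps_mem v y hy hs.2
  refine ⟨⟨(s1, s2), ⟨h3, h5⟩, ?_⟩, h2⟩
  exact Prod.ext h4.symm h6.symm

/-- A number all of whose approximations are prefixes with growing digits. -/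
theorem tendsto_of {U : ℕ → List ℕ} {E : ℕ → ℝ} {g : ℝ} (hU : ∀ n, ∀ a ∈ U n, 1 ≤ a)
    (hE : ∀ n : ℕ, (n : ℝ) ≤ E n) (hlen : ∀ n, n ≤ (U n).length)
    (hdig : ∀ n m, n ≤ m → ∃ z : List ℕ, U m = z ++ U n ∧ ∀ a ∈ z, E n - 2 ≤ (a : ℝ))
    (hg : ∀ n, ∃ t ∈ Set.Icc (0 : ℝ) 1, g = ps (U n) t) :
    g ∈ Set.Ioo (0 : ℝ) 1 ∧ Filter.Tendsto (fun n : ℕ => ⌊1 / (T^[n] g)⌋)
      Filter.atTop Filter.atTop := by
  have hrev : ∀ n, ∀ a ∈ (U n).reverse, 1 ≤ a := fun n a ha => hU n a (List.mem_reverse.1 ha)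
  constructor
  · obtain ⟨t, ht, h⟩ := hg 2
    rw [h, ps_eq_ph]
    obtain ⟨_, _, h3, h4⟩ := ph_bounds (hrev 2) ht.1 ht.2
    have := hlen 2
    rw [List.length_reverse] at h3 h4
    exact ⟨h3 (by omega), h4 (by omega)⟩
  · rw [Filter.tendsto_atTop]
    intro M
    obtain ⟨n0, hn0⟩ := exists_nat_ge ((M : ℝ) + 2)
    rw [Filter.eventually_atTop]
    refine ⟨(U n0).length, fun n hn => ?_⟩
    obtain ⟨m, hm⟩ : ∃ m, m = max n0 (n + 3) := ⟨_, rfl⟩
    obtain ⟨z, hz, hz2⟩ := hdig n0 m (by rw [hm]; exact le_max_left _ _)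
    obtain ⟨t, ht, h⟩ := hg m
    have hl : n + 3 ≤ (U m).reverse.length := by
      rw [List.length_reverse]
      exact le_trans (by rw [hm]; exact le_max_right _ _) (hlen m)
    rw [h, ps_eq_ph, digit (hrev m) ht.1 ht.2 hl]
    have h1 : (U m).reverse[n] ∈ z.reverse := by
      have h2 : (U m).reverse = (U n0).reverse ++ z.reverse := by rw [hz, List.reverse_append]
      have h3 : (U m).reverse[n] = ((U n0).reverse ++ z.reverse)[n]'(by
        rw [← h2]; omega) := by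
        congr 1
      rw [h3, List.getElem_append_right (by rw [List.length_reverse]; exact hn)]
      exact List.getElem_mem _
    have h4 := hz2 _ (List.mem_reverse.1 h1)
    have h5 := hE n0
    have h6 : (M : ℝ) ≤ ((U m).reverse[n] : ℕ) := by linarith
    exact_mod_cast h6

theorem init {x : ℝ} (hx : Irrational x) (h0 : 0 < x) (h1 : x < 1) :
    ∃ (u v : List ℕ) (E : ℝ), Same x u v E := by
  obtain ⟨Y, hY⟩ : ∃ Y : ℝ, Y = 1 / x := ⟨_, rfl⟩
  have hY1 : 1 < Y := by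
    rw [hY, lt_div_iff₀ h0]
    linarith
  obtain ⟨n, hn⟩ : ∃ n : ℕ, n = ⌊Y⌋₊ := ⟨_, rfl⟩
  have hn1 : (n : ℝ) ≤ Y := by
    rw [hn]
    exact Nat.floor_le (by linarith)
  have hn2 : Y < n + 1 := by
    rw [hn]
    exact Nat.lt_floor_add_one Y
  have hn3 : 1 ≤ n := by
    rw [hn]
    exact Nat.le_floor (by exact_mod_cast hY1.le)
  have hu0 : ∀ a ∈ ([] : List ℕ), 1 ≤ a := by simp
  have k0 : (1 : ℝ) * (x - ps [] 0 - ps [] 0) * q [] * q [] * Y = 1 := by
    rw [q_nil, hY]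
    simp only [ps]
    field_simp
    ring
  have k1 := add_digit (x := x) hu0 hu0 (by linarith : (0 : ℝ) < Y) 1 (by simp) k0 (a := n) hn3
  have hu1 : ∀ b ∈ [n], 1 ≤ b := cons_all hu0 hn3
  obtain ⟨h5, h6⟩ := q_bounds hu1
  rw [q_nil, r_nil, mul_one, sub_zero, div_one, one_mul, mul_one] at k1
  have hf' : 0 < Y - n := by
    rcases lt_or_eq_of_le hn1 with hlt | heq
    · linarith
    · exfalso
      rw [heq, sub_self] at k1
      have h13 := ne_of_irrational hx [n] []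
      have : (x - ps [n] 0 - ps [] 0) * q [n] * Y ≠ 0 := by
        have h16 : q [n] ≠ 0 := by linarith
        have h18 : Y ≠ 0 := by linarith
        positivity
      exact this k1
  obtain ⟨f, hf⟩ : ∃ f : ℝ, f = Y - n := ⟨_, rfl⟩
  rw [← hf] at hf'
  have hf1 : f < 1 := by linarith
  have k2 : (-1 : ℝ) * (x - ps [n] 0 - ps [] 0) * q [n] * q [] * (Y / f) = 1 := by
    rw [q_nil, ← mul_div_assoc, div_eq_one_iff_eq hf'.ne']
    linarith
  obtain ⟨W, hW⟩ : ∃ W : ℝ, W = (Y / f * q [] - r [n]) / q [n] := ⟨_, rfl⟩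
  have hWf : W = 1 / f := by
    rw [hW, r_cons, q_cons, q_nil, r_nil]
    have h8 : (n : ℝ) ≠ 0 := by
      have : (0 : ℝ) < n := by exact_mod_cast hn3
      exact this.ne'
    have h9 : Y = n + f := by linarith
    rw [h9]
    field_simp
    ring
  have hW1 : 1 < W := by
    rw [hWf, lt_div_iff₀ hf']
    linarith
  obtain ⟨m, hm⟩ : ∃ m : ℕ, m = ⌊W⌋₊ := ⟨_, rfl⟩
  have hm1 : (m : ℝ) ≤ W := by
    rw [hm]
    exact Nat.floor_le (by linarith)
  have hm2 : W < m + 1 := by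
    rw [hm]
    exact Nat.lt_floor_add_one W
  have hm3 : 1 ≤ m := by
    rw [hm]
    exact Nat.le_floor (by exact_mod_cast hW1.le)
  have k4 := add_digit (x := x) hu1 hu0 (by positivity) (-1) (by simp) k2 (a := m) hm3
  rw [← hW] at k4
  have hu2 : ∀ b ∈ [m, n], 1 ≤ b := cons_all hu1 hm3
  obtain ⟨h11, h12⟩ := q_bounds hu2
  have hg : 0 < W - m := by
    rcases lt_or_eq_of_le hm1 with hlt | heq
    · linarith
    · exfalso
      rw [heq, sub_self] at k4
      have h13 := ne_of_irrational hx [m, n] []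
      have : (-1 : ℝ) * (x - ps [m, n] 0 - ps [] 0) * q [m, n] * q [] * (Y / f) ≠ 0 := by
        have h16 : q [m, n] ≠ 0 := by linarith
        have h17 : q [] ≠ 0 := by rw [q_nil]; norm_num
        have h18 : Y / f ≠ 0 := by positivity
        positivity
      exact this k4
  refine ⟨[m, n], [], Y / f / (W - m), hu2, hu0, by simp, ?_, ?_⟩
  · have hn' : (1 : ℝ) ≤ n := by exact_mod_cast hn3
    have hm' : (1 : ℝ) ≤ m := by exact_mod_cast hm3
    have hWf2 : W * f = 1 := by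
      rw [hWf]
      field_simp
    rw [lt_div_iff₀ hg, lt_div_iff₀ hf']
    have e1 : 3 * (W - m) * f = 3 - 3 * m * f := by
      calc 3 * (W - m) * f = 3 * (W * f) - 3 * m * f := by ring
        _ = _ := by rw [hWf2]; ring
    rw [e1]
    have e2 : Y = n + f := by linarith
    rw [e2]
    have e3 : 1 < m * f + f := by nlinarith
    have e4 : f ≤ m * f := by nlinarith
    nlinarith
  · change (-1) ^ 2 * (x - ps [m, n] 0 - ps [] 0) * q [m, n] * q [] * (Y / f / (W - m)) = 1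
    rw [← mul_div_assoc, div_eq_one_iff_eq hg.ne']
    linarith

theorem irrational_case {x : ℝ} (hx : Irrational x) (h0 : 0 < x) (h1 : x < 1) :
    ∃ g₁ g₂ : ℝ, g₁ ∈ Set.Ioo (0 : ℝ) 1 ∧ g₂ ∈ Set.Ioo (0 : ℝ) 1 ∧
      Filter.Tendsto (fun n : ℕ => ⌊1 / (T^[n] g₁)⌋) Filter.atTop Filter.atTop ∧
      Filter.Tendsto (fun n : ℕ => ⌊1 / (T^[n] g₂)⌋) Filter.atTop Filter.atTop ∧
      x = g₁ + g₂ := by
  obtain ⟨u0, v0, E0, hS0⟩ := init hx h0 h1
  have hstep : ∀ p : {p : List ℕ × List ℕ × ℝ // Same x p.1 p.2.1 p.2.2},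
      ∃ p' : {p : List ℕ × List ℕ × ℝ // Same x p.1 p.2.1 p.2.2},
        p.1.2.2 + 1 ≤ p'.1.2.2 ∧ (∃ z : List ℕ, p'.1.1 = z ++ p.1.1 ∧ z ≠ [] ∧
          ∀ a ∈ z, p.1.2.2 - 2 ≤ (a : ℝ)) ∧ (∃ y : List ℕ, p'.1.2.1 = y ++ p.1.2.1 ∧ y ≠ [] ∧
          ∀ a ∈ y, p.1.2.2 - 2 ≤ (a : ℝ)) := by
    rintro ⟨⟨u, v, E⟩, h⟩
    obtain ⟨z, y, E', h1, h2, h3, h4, h5, h6⟩ := full_step hx h
    exact ⟨⟨(z ++ u, y ++ v, E'), h1⟩, h2, ⟨z, rfl, h3, h5⟩, ⟨y, rfl, h4, h6⟩⟩
  choose nx hnx using hstep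
  let S : ℕ → {p : List ℕ × List ℕ × ℝ // Same x p.1 p.2.1 p.2.2} :=
    fun n => Nat.rec ⟨(u0, v0, E0), hS0⟩ (fun _ p => nx p) n
  have hS : ∀ n, S (n + 1) = nx (S n) := fun n => rfl
  let U : ℕ → List ℕ := fun n => (S n).1.1
  let V : ℕ → List ℕ := fun n => (S n).1.2.1
  let E : ℕ → ℝ := fun n => (S n).1.2.2
  have hsame : ∀ n, Same x (U n) (V n) (E n) := fun n => (S n).2
  have hEs : ∀ n, E n + 1 ≤ E (n + 1) := fun n => (hnx (S n)).1
  have hUs : ∀ n, ∃ z : List ℕ, U (n + 1) = z ++ U n ∧ z ≠ [] ∧ ∀ a ∈ z, E n - 2 ≤ (a : ℝ) :=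
    fun n => (hnx (S n)).2.1
  have hVs : ∀ n, ∃ z : List ℕ, V (n + 1) = z ++ V n ∧ z ≠ [] ∧ ∀ a ∈ z, E n - 2 ≤ (a : ℝ) :=
    fun n => (hnx (S n)).2.2
  clear_value U V E
  have hE : ∀ n : ℕ, (n : ℝ) ≤ E n := by
    intro n
    induction n with
    | zero =>
      have := (hsame 0).hE
      push_cast
      linarith
    | succ n ih =>
      have := hEs n
      push_cast
      linarith
  have hEm : Monotone E := monotone_nat_of_le_succ (fun n => by linarith [hEs n])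
  have gen : ∀ {U : ℕ → List ℕ}, (∀ n, ∃ z : List ℕ, U (n + 1) = z ++ U n ∧ z ≠ [] ∧
      ∀ a ∈ z, E n - 2 ≤ (a : ℝ)) → (∀ n, n ≤ (U n).length) ∧
      ∀ n m, n ≤ m → ∃ z : List ℕ, U m = z ++ U n ∧ ∀ a ∈ z, E n - 2 ≤ (a : ℝ) := by
    intro U hUs
    constructor
    · intro n
      induction n with
      | zero => omega
      | succ n ih =>
        obtain ⟨z, hz, hz2, _⟩ := hUs n
        rw [hz, List.length_append]
        have := List.length_pos_iff.2 hz2
        omega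
    · intro n m hnm
      induction m, hnm using Nat.le_induction with
      | base => exact ⟨[], rfl, by simp⟩
      | succ m hm ih =>
        obtain ⟨z, hz, hz2⟩ := ih
        obtain ⟨y, hy, _, hy2⟩ := hUs m
        refine ⟨y ++ z, by rw [hy, hz, List.append_assoc], ?_⟩
        intro a ha
        rcases List.mem_append.1 ha with ha | ha
        · have h3 := hy2 a ha
          have h4 := hEm hm
          linarith
        · exact hz2 a ha
  obtain ⟨hUl, hUd⟩ := gen hUs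
  obtain ⟨hVl, hVd⟩ := gen hVs
  have hne : (⋂ n, fib x (U n) (V n)).Nonempty := by
    refine IsCompact.nonempty_iInter_of_sequence_nonempty_isCompact_isClosed _ ?_ ?_ ?_ ?_
    · intro n
      obtain ⟨z, hz, _, hz2⟩ := hUs n
      obtain ⟨y, hy, _, hy2⟩ := hVs n
      have h1 := (hsame (n + 1)).hu
      have h2 := (hsame (n + 1)).hv
      rw [hz] at h1
      rw [hy] at h2
      rw [hz, hy]
      exact fib_mono x (fun a ha => h1 a (List.mem_append_left _ ha))
        (fun a ha => h2 a (List.mem_append_left _ ha))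
    · intro n
      exact fib_nonempty (hsame n)
    · exact fib_compact x (hsame 0).hu (hsame 0).hv
    · intro n
      exact (fib_compact x (hsame n).hu (hsame n).hv).isClosed
  obtain ⟨⟨g₁, g₂⟩, hg⟩ := hne
  rw [Set.mem_iInter] at hg
  have hsum : g₁ + g₂ = x := (hg 0).2
  have hg1 : ∀ n, ∃ t ∈ Set.Icc (0 : ℝ) 1, g₁ = ps (U n) t := by
    intro n
    obtain ⟨⟨s, hs, h⟩, _⟩ := hg n
    exact ⟨s.1, hs.1, (congrArg Prod.fst h).symm⟩
  have hg2 : ∀ n, ∃ t ∈ Set.Icc (0 : ℝ) 1, g₂ = ps (V n) t := by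
    intro n
    obtain ⟨⟨s, hs, h⟩, _⟩ := hg n
    exact ⟨s.2, hs.2, (congrArg Prod.snd h).symm⟩
  obtain ⟨a1, a2⟩ := tendsto_of (fun n => (hsame n).hu) hE hUl hUd hg1
  obtain ⟨b1, b2⟩ := tendsto_of (fun n => (hsame n).hv) hE hVl hVd hg2
  exact ⟨g₁, g₂, a1, b1, a2, b2, hsum.symm⟩

end Q54.GG
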