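import Pool.Agent.Q54.GG.Limit

/-!
# The rational numbers
-/

set_option autoImplicit false

namespace Q54.GG

theorem rat_exp (n : ℕ) : ∀ p q : ℕ, 0 < p → p < q → p ≤ n →
    (∃ w : List ℕ, (∀ a ∈ w, 1 ≤ a) ∧ ph w 0 = (p : ℝ) / q ∧ Odd w.length) ∧
    (∃ w : List ℕ, (∀ a ∈ w, 1 ≤ a) ∧ ph w 0 = (p : ℝ) / q ∧ Even w.length) := by
  induction n with
  | zero =>
    intro p q h1 _ h3
    omega
  | succ n ih =>
    intro p q h1 h2 h3
    obtain ⟨a, ha⟩ : ∃ a, a = q / p := ⟨_, rfl⟩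
    obtain ⟨b, hb⟩ : ∃ b, b = q % p := ⟨_, rfl⟩
    have hab : p * a + b = q := by
      rw [ha, hb]
      exact Nat.div_add_mod q p
    have hbp : b < p := by
      rw [hb]
      exact Nat.mod_lt _ h1
    have ha1 : 1 ≤ a := by
      rw [ha]
      exact (Nat.one_le_div_iff h1).2 h2.le
    have hpR : (p : ℝ) ≠ 0 := by exact_mod_cast h1.ne'
    have habR : (p : ℝ) * a + b = q := by exact_mod_cast hab
    have haR : (1 : ℝ) ≤ a := by exact_mod_cast ha1
    rcases Nat.eq_zero_or_pos b with hb0 | hb0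
    · have ha2 : 2 ≤ a := by
        by_contra hcon
        have : a = 1 := by omega
        rw [this] at hab
        omega
      have h4 : (p : ℝ) / q = 1 / a := by
        rw [← habR, hb0]
        push_cast
        rw [add_zero]
        field_simp
      refine ⟨⟨[a], ?_, ?_, by simp⟩, ⟨[a - 1, 1], ?_, ?_, by simp⟩⟩
      · intro c hc
        rw [List.mem_singleton] at hc
        omega
      · rw [h4]
        change 1 / ((a : ℝ) + 0) = _
        rw [add_zero]
      · intro c hc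
        rcases List.mem_cons.1 hc with rfl | hc
        · omega
        · rw [List.mem_singleton] at hc
          omega
      · rw [h4]
        change 1 / (((a - 1 : ℕ) : ℝ) + 1 / (((1 : ℕ) : ℝ) + 0)) = _
        rw [Nat.cast_sub ha1]
        push_cast
        norm_num
    · obtain ⟨⟨w1, h5, h6, h7⟩, ⟨w2, h8, h9, h10⟩⟩ := ih b p hb0 hbp (by omega)
      have h4 : (p : ℝ) / q = 1 / (a + b / p) := by
        rw [← habR]
        field_simp
      refine ⟨⟨a :: w2, cons_all h8 ha1, ?_, ?_⟩, ⟨a :: w1, cons_all h5 ha1, ?_, ?_⟩⟩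
      · change 1 / ((a : ℝ) + ph w2 0) = _
        rw [h9, h4]
      · rw [List.length_cons]
        exact h10.add_one
      · change 1 / ((a : ℝ) + ph w1 0) = _
        rw [h6, h4]
      · rw [List.length_cons]
        exact h7.add_one

theorem rat_list {x : ℚ} (h0 : 0 < x) (h1 : x ≤ 1) :
    ∃ u : List ℕ, (∀ a ∈ u, 1 ≤ a) ∧ ps u 0 = (x : ℝ) ∧ (-1 : ℝ) ^ u.length = -1 := by
  rcases lt_or_eq_of_le h1 with h1 | h1
  · have hn : 0 < x.num := Rat.num_pos.2 h0
    have hd : 0 < x.den := x.den_pos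
    obtain ⟨p, hp⟩ : ∃ p : ℕ, (p : ℤ) = x.num := ⟨x.num.toNat, Int.toNat_of_nonneg hn.le⟩
    have hx : x = (p : ℚ) / (x.den : ℚ) := by
      conv_lhs => rw [← Rat.num_div_den x]
      rw [← hp]
      push_cast
      rfl
    have hp0 : 0 < p := by
      rw [← hp] at hn
      exact_mod_cast hn
    have hpd : p < x.den := by
      rw [hx] at h1
      have hd' : (0 : ℚ) < x.den := by exact_mod_cast hd
      have h2 : (p : ℚ) / (x.den : ℚ) < 1 := by
        rw [← hx] at h1 ⊢
        exact h1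
      rw [div_lt_one hd'] at h2
      exact_mod_cast h2
    obtain ⟨⟨w, h5, h6, h7⟩, _⟩ := rat_exp p p x.den hp0 hpd le_rfl
    refine ⟨w.reverse, fun a ha => h5 a (List.mem_reverse.1 ha), ?_, ?_⟩
    · rw [ps_eq_ph, List.reverse_reverse, h6]
      conv_rhs => rw [hx]
      push_cast
      rfl
    · rw [List.length_reverse]
      exact h7.neg_one_pow
  · refine ⟨[1], by simp, ?_, by simp⟩
    rw [h1]
    change 1 / (((1 : ℕ) : ℝ) + 0) = _
    norm_num

theorem exists_cf (A : ℕ → ℕ) (hA : ∀ k, 1 ≤ A k) :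
    ∃ τ : ℕ → ℝ, ∀ k, 0 < τ k ∧ τ k < 1 ∧ τ k = 1 / (A k + τ (k + 1)) := by
  have hne : (⋂ n : ℕ, (Set.pi Set.univ (fun _ : ℕ => Set.Icc (0 : ℝ) 1)) ∩
      {τ : ℕ → ℝ | ∀ k, k < n → τ k * (A k + τ (k + 1)) = 1}).Nonempty := by
    have hclosed : ∀ n : ℕ, IsClosed {τ : ℕ → ℝ | ∀ k, k < n → τ k * (A k + τ (k + 1)) = 1} := by
      intro n
      have : {τ : ℕ → ℝ | ∀ k, k < n → τ k * (A k + τ (k + 1)) = 1} =
          ⋂ k, ⋂ (_ : k < n), {τ : ℕ → ℝ | τ k * (A k + τ (k + 1)) = 1} := by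
        ext τ
        simp
      rw [this]
      refine isClosed_iInter fun k => isClosed_iInter fun _ => ?_
      exact isClosed_eq (by fun_prop) continuous_const
    refine IsCompact.nonempty_iInter_of_sequence_nonempty_isCompact_isClosed _ ?_ ?_ ?_ ?_
    · rintro n τ ⟨h1, h2⟩
      exact ⟨h1, fun k hk => h2 k (by omega)⟩
    · intro n
      have : ∀ n : ℕ, ∀ A : ℕ → ℕ, (∀ k, 1 ≤ A k) → ∃ τ : ℕ → ℝ, (∀ k, τ k ∈ Set.Icc (0 : ℝ) 1) ∧
          ∀ k, k < n → τ k * (A k + τ (k + 1)) = 1 := by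
        intro n
        induction n with
        | zero =>
          intro A _
          exact ⟨fun _ => 0, fun _ => by norm_num, by simp⟩
        | succ n ih =>
          intro A hA
          obtain ⟨τ, h1, h2⟩ := ih (fun k => A (k + 1)) (fun k => hA (k + 1))
          have ha : (1 : ℝ) ≤ A 0 := by exact_mod_cast hA 0
          have h3 : 0 < (A 0 : ℝ) + τ 0 := by linarith [(h1 0).1]
          refine ⟨fun k => Nat.casesOn k (1 / (A 0 + τ 0)) τ, ?_, ?_⟩
          · intro k
            cases k with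
            | zero =>
              change 1 / ((A 0 : ℝ) + τ 0) ∈ Set.Icc (0 : ℝ) 1
              exact ⟨by positivity, by rw [div_le_one h3]; linarith [(h1 0).1]⟩
            | succ k => exact h1 k
          · intro k hk
            cases k with
            | zero =>
              change 1 / ((A 0 : ℝ) + τ 0) * (A 0 + τ 0) = 1
              field_simp
            | succ k => exact h2 k (by omega)
      obtain ⟨τ, h1, h2⟩ := this n A hA
      exact ⟨τ, fun k _ => h1 k, h2⟩
    · exact (isCompact_univ_pi fun _ => isCompact_Icc).inter_right (hclosed 0)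
    · intro n
      exact ((isCompact_univ_pi fun _ => isCompact_Icc).inter_right (hclosed n)).isClosed
  obtain ⟨τ, hτ⟩ := hne
  rw [Set.mem_iInter] at hτ
  refine ⟨τ, fun k => ?_⟩
  have h1 : ∀ k, τ k ∈ Set.Icc (0 : ℝ) 1 := fun k => (hτ 0).1 k (Set.mem_univ _)
  have h2 : ∀ k, τ k * (A k + τ (k + 1)) = 1 := fun k => (hτ (k + 1)).2 k (by omega)
  have hpos : ∀ k, 0 < τ k := by
    intro k
    rcases lt_or_eq_of_le (h1 k).1 with h | h
    · exact h
    · have := h2 k
      rw [← h, zero_mul] at this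
      norm_num at this
  have ha : (1 : ℝ) ≤ A k := by exact_mod_cast hA k
  have h3 := hpos (k + 1)
  have h4 := hpos k
  have h5 := h2 k
  refine ⟨h4, ?_, ?_⟩
  · nlinarith
  · rw [eq_div_iff (by linarith)]
    exact h5

theorem T_seq {A : ℕ → ℕ} {τ : ℕ → ℝ}
    (h : ∀ k, 0 < τ k ∧ τ k < 1 ∧ τ k = 1 / (A k + τ (k + 1))) (k : ℕ) : T^[k] (τ 0) = τ k := by
  induction k with
  | zero => rfl
  | succ k ih =>
    rw [Function.iterate_succ_apply', ih, (h k).2.2]
    exact T_of (h (k + 1)).1.le (h (k + 1)).2.1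

theorem tendsto_seq {A : ℕ → ℕ} {τ : ℕ → ℝ}
    (h : ∀ k, 0 < τ k ∧ τ k < 1 ∧ τ k = 1 / (A k + τ (k + 1))) (hA : ∀ k, k ≤ A k) :
    Filter.Tendsto (fun n : ℕ => ⌊1 / (T^[n] (τ 0))⌋) Filter.atTop Filter.atTop := by
  have h1 : (fun n : ℕ => ⌊1 / (T^[n] (τ 0))⌋) = fun n => ((A n : ℕ) : ℤ) := by
    funext n
    rw [T_seq h, (h n).2.2]
    exact floor_of (h (n + 1)).1.le (h (n + 1)).2.1
  rw [h1]
  exact tendsto_natCast_atTop_atTop.comp (Filter.tendsto_atTop_mono hA Filter.tendsto_id)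

theorem T_full (w : List ℕ) : ∀ (_ : ∀ a ∈ w, 1 ≤ a) {t : ℝ} (_ : 0 < t) (_ : t < 1),
    0 < ph w t ∧ ph w t < 1 ∧ T^[w.length] (ph w t) = t := by
  induction w with
  | nil => intro _ t h0 h1; exact ⟨h0, h1, rfl⟩
  | cons a w ih =>
    intro hw t h0 h1
    have ha : (1 : ℝ) ≤ a := by exact_mod_cast hw a List.mem_cons_self
    obtain ⟨i1, i2, i3⟩ := ih (fun b hb => hw b (List.mem_cons_of_mem _ hb)) h0 h1
    have h2 : 0 < (a : ℝ) + ph w t := by linarith
    refine ⟨?_, ?_, ?_⟩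
    · change 0 < 1 / ((a : ℝ) + ph w t)
      positivity
    · change 1 / ((a : ℝ) + ph w t) < 1
      rw [div_lt_one h2]
      linarith
    · change T^[w.length + 1] (1 / ((a : ℝ) + ph w t)) = t
      rw [Function.iterate_succ_apply, T_of i1.le i2, i3]

theorem rational_case {x : ℚ} (h0 : 0 < x) (h1 : x ≤ 1) :
    ∃ g₁ g₂ : ℝ, g₁ ∈ Set.Ioo (0 : ℝ) 1 ∧ g₂ ∈ Set.Ioo (0 : ℝ) 1 ∧
      Filter.Tendsto (fun n : ℕ => ⌊1 / (T^[n] g₁)⌋) Filter.atTop Filter.atTop ∧
      Filter.Tendsto (fun n : ℕ => ⌊1 / (T^[n] g₂)⌋) Filter.atTop Filter.atTop ∧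
      (x : ℝ) = g₁ + g₂ := by
  obtain ⟨u, hu, hx, hs⟩ := rat_list h0 h1
  obtain ⟨q1, q2⟩ := q_bounds hu
  have hr := r_nonneg u
  obtain ⟨N, hN⟩ : ∃ N : ℕ, N = (qr u).1 * (qr u).1 := ⟨_, rfl⟩
  have hNR : (N : ℝ) = q u * q u := by
    rw [hN, q]
    push_cast
    rfl
  have hN1 : (1 : ℝ) ≤ N := by
    rw [hNR]
    nlinarith
  have hN1' : 1 ≤ N := by exact_mod_cast hN1
  obtain ⟨A, hA⟩ : ∃ A : ℕ → ℕ, A = fun k => N * (k + 1) := ⟨_, rfl⟩
  have hA1 : ∀ k, k + 1 ≤ A k := by
    intro k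
    rw [hA]
    exact Nat.le_mul_of_pos_left _ hN1'
  obtain ⟨τ, hτ⟩ := exists_cf A (fun k => le_trans (by omega) (hA1 k))
  have hAR : ∀ k, (A k : ℝ) = N * (k + 1) := by
    intro k
    rw [hA]
    push_cast
    rfl
  -- the first number
  have hw : ∀ a ∈ u.reverse, 1 ≤ a := fun a ha => hu a (List.mem_reverse.1 ha)
  obtain ⟨a1, a2, a3⟩ := T_full u.reverse hw (hτ 0).1 (hτ 0).2.1
  -- the second number
  obtain ⟨B, hB⟩ : ∃ B : ℕ → ℕ, B = fun k => if k = 0 then N * A 0 + (qr u).1 * (qr u).2 else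
    if Even k then N * A k else k + 1 := ⟨_, rfl⟩
  obtain ⟨σ, hσ⟩ : ∃ σ : ℕ → ℝ, σ = fun k => if k = 0 then
    1 / (N * A 0 + q u * r u + N * τ 1) else if Even k then τ k / N else N * τ k := ⟨_, rfl⟩
  have hσ0 : σ 0 = 1 / (N * A 0 + q u * r u + N * τ 1) := by rw [hσ]; simp
  have hN0 : (0 : ℝ) < N := by linarith
  have hσ1 : ∀ k, k ≠ 0 → (0 < σ k ∧ σ k < 1) := by
    intro k hk
    obtain ⟨t1, t2, t3⟩ := hτ k
    have t4 := (hτ (k + 1)).1
    by_cases he : Even k
    · have : σ k = τ k / N := by rw [hσ]; simp [hk, he]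
      rw [this]
      constructor
      · positivity
      · rw [div_lt_one hN0]
        linarith
    · have : σ k = N * τ k := by rw [hσ]; simp [hk, he]
      rw [this]
      constructor
      · positivity
      · rw [t3, hAR, mul_one_div, div_lt_one (by positivity)]
        have : (1 : ℝ) ≤ k := by exact_mod_cast Nat.one_le_iff_ne_zero.2 hk
        nlinarith
  have hrec : ∀ k, σ k = 1 / (B k + σ (k + 1)) := by
    intro k
    obtain ⟨t1, t2, t3⟩ := hτ k
    have t4 := (hτ (k + 1)).1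
    rcases Nat.eq_zero_or_pos k with hk | hk
    · rw [hk]
      have e1 : σ (0 + 1) = N * τ 1 := by rw [hσ]; simp
      have e2 : (B 0 : ℝ) = N * A 0 + q u * r u := by
        rw [hB]
        simp only [if_true]
        push_cast
        rfl
      rw [hσ0, e1, e2]
    · have hk' : k ≠ 0 := hk.ne'
      by_cases he : Even k
      · have e0 : σ k = τ k / N := by rw [hσ]; simp [hk', he]
        have he' : ¬ Even (k + 1) := by rw [Nat.even_add_one]; simpa using he
        have e1 : σ (k + 1) = N * τ (k + 1) := by rw [hσ]; simp [he']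
        have e2 : (B k : ℝ) = N * A k := by rw [hB]; simp [hk', he]
        rw [e0, e1, e2, t3, ← mul_add, div_div, mul_comm ((A k : ℝ) + _)]
      · have e0 : σ k = N * τ k := by rw [hσ]; simp [hk', he]
        have he' : Even (k + 1) := by rw [Nat.even_add_one]; exact he
        have e1 : σ (k + 1) = τ (k + 1) / N := by rw [hσ]; simp [he']
        have e2 : (B k : ℝ) = k + 1 := by rw [hB]; simp [hk', he]
        rw [e0, e1, e2, t3, hAR]
        have t5 : (N : ℝ) * (k + 1) + τ (k + 1) ≠ 0 := by positivity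
        have t6 : (k : ℝ) + 1 + τ (k + 1) / N ≠ 0 := by positivity
        field_simp
  have hB1 : ∀ k, k ≤ B k := by
    intro k
    rcases Nat.eq_zero_or_pos k with hk | hk
    · omega
    · rw [hB]
      by_cases he : Even k
      · simp only [hk.ne', if_false, he, if_true]
        have := hA1 k
        nlinarith
      · simp only [hk.ne', if_false, he]
        omega
  have hσall : ∀ k, 0 < σ k ∧ σ k < 1 ∧ σ k = 1 / (B k + σ (k + 1)) := by
    intro k
    rcases Nat.eq_zero_or_pos k with hk | hk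
    · rw [hk]
      have t4 := (hτ 1).1
      have t5 : (1 : ℝ) ≤ A 0 := by
        exact_mod_cast (hA1 0)
      have t7 : (1 : ℝ) < N * A 0 + q u * r u + N * τ 1 := by
        have : 0 ≤ q u * r u := by positivity
        have : 0 < N * τ 1 := by positivity
        nlinarith
      refine ⟨?_, ?_, hrec 0⟩
      · rw [hσ0]
        positivity
      · rw [hσ0, div_lt_one (by linarith)]
        exact t7
    · obtain ⟨s1, s2⟩ := hσ1 k hk.ne'
      exact ⟨s1, s2, hrec k⟩
  refine ⟨ps u (τ 0), σ 0, ?_, ⟨(hσall 0).1, (hσall 0).2.1⟩, ?_, tendsto_seq hσall hB1, ?_⟩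
  · rw [ps_eq_ph]
    exact ⟨a1, a2⟩
  · rw [ps_eq_ph, ← Filter.tendsto_add_atTop_iff_nat u.reverse.length]
    have h2 : (fun n : ℕ => ⌊1 / (T^[n + u.reverse.length] (ph u.reverse (τ 0)))⌋) =
        fun n => ⌊1 / (T^[n] (τ 0))⌋ := by
      funext n
      rw [Function.iterate_add_apply, a3]
    rw [h2]
    exact tendsto_seq hτ (fun k => le_trans (by omega) (hA1 k))
  · obtain ⟨t1, t2, t3⟩ := hτ 0
    have t4 := (hτ 1).1
    rw [ps_formula hu t1.le, hx, hs, hσ0, hNR]
    have t5 : τ 0 * (A 0 + τ 1) = 1 := by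
      have t6 : (A 0 : ℝ) + τ (0 + 1) ≠ 0 := by positivity
      rw [t3]
      rw [zero_add] at t6 ⊢
      field_simp
    have t7 : q u ≠ 0 := by positivity
    have t8 : q u + r u * τ 0 ≠ 0 := by positivity
    have t9 : q u * q u * A 0 + q u * r u + q u * q u * τ 1 ≠ 0 := by positivity
    have t10 : τ 0 / (q u * (q u + r u * τ 0)) =
        1 / (q u * q u * A 0 + q u * r u + q u * q u * τ 1) := by
      rw [div_eq_div_iff (by positivity) t9, one_mul]
      have : τ 0 * (q u * q u * A 0 + q u * r u + q u * q u * τ 1) =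
          q u * q u * (τ 0 * (A 0 + τ 1)) + q u * r u * τ 0 := by ring
      rw [this, t5]
      ring
    rw [← t10]
    ring

end Q54.GG
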