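import Pool.Agent.Q54.GG.Basic

/-!
# The step of the algorithm
-/

set_option autoImplicit false

namespace Q54.GG

/-- The two finite continued fractions `u`, `v` lie on the same side of what they approximate and the
defect `x - u - v` has the right sign. The potential is `E = 1 / (|defect| q_u q_v)`. -/
structure Same (x : ℝ) (u v : List ℕ) (E : ℝ) : Prop where
  hu : ∀ a ∈ u, 1 ≤ a
  hv : ∀ a ∈ v, 1 ≤ a
  par : (-1 : ℝ) ^ u.length = (-1) ^ v.length
  hE : 3 < E
  key : (-1) ^ u.length * (x - ps u 0 - ps v 0) * q u * q v * E = 1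

theorem Same.symm {x : ℝ} {u v : List ℕ} {E : ℝ} (h : Same x u v E) : Same x v u E where
  hu := h.hv
  hv := h.hu
  par := h.par.symm
  hE := h.hE
  key := by
    have h1 := h.key
    rw [h.par] at h1
    linarith

theorem sign_sq (n : ℕ) : (-1 : ℝ) ^ n * (-1) ^ n = 1 := by
  rw [← mul_pow]
  norm_num

theorem cons_all {u : List ℕ} (hu : ∀ a ∈ u, 1 ≤ a) {a : ℕ} (ha : 1 ≤ a) :
    ∀ b ∈ a :: u, 1 ≤ b := by
  intro b hb
  rcases List.mem_cons.1 hb with rfl | hb
  · exact ha
  · exact hu b hb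

/-- adding a digit to the first continued fraction -/
theorem add_digit {x : ℝ} {u v : List ℕ} {E : ℝ} (hu : ∀ a ∈ u, 1 ≤ a) (hv : ∀ a ∈ v, 1 ≤ a)
    (hE : 0 < E) (s : ℝ) (hs : s = (-1) ^ u.length)
    (key : s * (x - ps u 0 - ps v 0) * q u * q v * E = 1) {a : ℕ} (ha : 1 ≤ a) :
    s * (x - ps (a :: u) 0 - ps v 0) * q (a :: u) * q v * E = a - (E * q v - r u) / q u := by
  obtain ⟨h1, h2⟩ := q_bounds hu
  obtain ⟨h3, h4⟩ := q_bounds hv
  have h5 := move (s := s) (q := q u) (r := r u) (Q := q v) (δ := x - ps u 0 - ps v 0) (E := E)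
    (a := (a : ℝ)) (by rw [hs]; exact sign_sq _) h1 (r_nonneg u) h3 hE
    (by exact_mod_cast ha) key
  rw [← h5, ps_cons_zero hu ha, q_cons, hs]
  ring

set_option maxHeartbeats 4000000 in
theorem half_step {x : ℝ} (hx : Irrational x) {u v : List ℕ} {E : ℝ} (h : Same x u v E)
    (hq : q u ≤ q v) : ∃ (z y : List ℕ) (E' : ℝ), Same x (z ++ u) (y ++ v) E' ∧ E + 1 ≤ E' ∧
      z ≠ [] ∧ (∀ a ∈ z, E - 2 ≤ (a : ℝ)) ∧ (∀ a ∈ y, E - 2 ≤ (a : ℝ)) ∧
      (y ≠ [] ∨ q v ≤ q (z ++ u)) := by
  obtain ⟨hu, hv, par, hE, key⟩ := h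
  obtain ⟨h1, h2⟩ := q_bounds hu
  obtain ⟨h3, h4⟩ := q_bounds hv
  have hr := r_nonneg u
  have hr' := r_nonneg v
  have hs2 := sign_sq u.length
  obtain ⟨Y, hY⟩ : ∃ Y : ℝ, Y = (E * q v - r u) / q u := ⟨_, rfl⟩
  have hYq : Y * q u = E * q v - r u := by
    rw [hY]
    field_simp
  have hY1 : E - 1 ≤ Y := by
    rw [hY, le_div_iff₀ (by linarith)]
    nlinarith
  obtain ⟨n, hn⟩ : ∃ n : ℕ, n = ⌊Y⌋₊ := ⟨_, rfl⟩
  have hn1 : (n : ℝ) ≤ Y := by
    rw [hn]
    exact Nat.floor_le (by linarith)
  have hn2 : Y < n + 1 := by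
    rw [hn]
    exact Nat.lt_floor_add_one Y
  have hn3 : 1 ≤ n := by
    have : (1 : ℝ) < n := by linarith
    exact_mod_cast this.le
  obtain ⟨f, hf⟩ : ∃ f : ℝ, f = Y - n := ⟨_, rfl⟩
  have hf0 : 0 ≤ f := by linarith
  have hf1 : f < 1 := by linarith
  by_cases hc : 1 / E ≤ f
  · -- one digit each
    have hEf : E / (1 - f) ≥ E + 1 := by
      have hE0 : 0 < E := by linarith
      rw [ge_iff_le, le_div_iff₀ (by linarith)]
      have h6 : 1 ≤ E * f := by
        have := mul_le_mul_of_nonneg_left hc hE0.le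
        rwa [mul_one_div_cancel hE0.ne'] at this
      nlinarith
    obtain ⟨E', hE'⟩ : ∃ E' : ℝ, E' = E / (1 - f) := ⟨_, rfl⟩
    rw [← hE'] at hEf
    have hu1 : ∀ b ∈ (n + 1) :: u, 1 ≤ b := cons_all hu (by omega)
    have k1 := add_digit (x := x) hu hv (by linarith) _ rfl key (a := n + 1) (by omega)
    rw [← hY] at k1
    have k2 : (-1) ^ u.length * (x - ps ((n + 1) :: u) 0 - ps v 0) * q ((n + 1) :: u) * q v * E' =
        1 := by
      have h7 : ((n + 1 : ℕ) : ℝ) - Y = 1 - f := by push_cast; linarith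
      rw [h7] at k1
      have h8 : (1 - f) ≠ 0 := by linarith
      rw [hE', ← mul_div_assoc, k1, div_self h8]
    have hq1 : E * q v ≤ q ((n + 1) :: u) := by
      rw [q_cons]
      push_cast
      nlinarith
    obtain ⟨h5, h6⟩ := q_bounds hu1
    -- the second digit
    have k3 : (-1) ^ u.length * (x - ps v 0 - ps ((n + 1) :: u) 0) * q v * q ((n + 1) :: u) *
        E' = 1 := by linarith
    obtain ⟨W, hW⟩ : ∃ W : ℝ, W = (E' * q ((n + 1) :: u) - r v) / q v := ⟨_, rfl⟩
    have hW1 : E ≤ W := by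
      rw [hW, le_div_iff₀ (by linarith)]
      have h9 : E' * (E * q v) ≤ E' * q ((n + 1) :: u) :=
        mul_le_mul_of_nonneg_left hq1 (by linarith)
      have h10 : (E + 1) * (E * q v) ≤ E' * (E * q v) :=
        mul_le_mul_of_nonneg_right hEf (by nlinarith)
      nlinarith
    obtain ⟨m, hm⟩ : ∃ m : ℕ, m = ⌊W⌋₊ := ⟨_, rfl⟩
    have hm1 : (m : ℝ) ≤ W := by
      rw [hm]
      exact Nat.floor_le (by linarith)
    have hm2 : W < m + 1 := by
      rw [hm]
      exact Nat.lt_floor_add_one W
    have hm3 : 1 ≤ m := by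
      have : (1 : ℝ) < m := by linarith
      exact_mod_cast this.le
    have k4 := add_digit (x := x) hv hu1 (by linarith) _ par k3 (a := m) hm3
    rw [← hW] at k4
    have hv1 : ∀ b ∈ m :: v, 1 ≤ b := cons_all hv hm3
    obtain ⟨h11, h12⟩ := q_bounds hv1
    have hg : 0 < W - m := by
      rcases lt_or_eq_of_le hm1 with hlt | heq
      · linarith
      · exfalso
        rw [heq, sub_self] at k4
        have h13 := ne_of_irrational hx (m :: v) ((n + 1) :: u)
        have h14 : (-1 : ℝ) ^ u.length ≠ 0 := by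
          intro h15
          rw [h15] at hs2
          norm_num at hs2
        have : (-1) ^ u.length * (x - ps (m :: v) 0 - ps ((n + 1) :: u) 0) * q (m :: v) *
            q ((n + 1) :: u) * E' ≠ 0 := by
          have h16 : q (m :: v) ≠ 0 := by linarith
          have h17 : q ((n + 1) :: u) ≠ 0 := by linarith
          have h18 : E' ≠ 0 := by linarith
          positivity
        exact this k4
    have hE'' : E' ≤ E' / (W - m) := by
      rw [le_div_iff₀ hg]
      nlinarith
    refine ⟨[n + 1], [m], E' / (W - m), ⟨hu1, hv1, ?_, by linarith, ?_⟩, by linarith, by simp,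
      ?_, ?_, Or.inl (by simp)⟩
    · change (-1 : ℝ) ^ (u.length + 1) = (-1) ^ (v.length + 1)
      rw [pow_succ, pow_succ, par]
    · change (-1) ^ (u.length + 1) * (x - ps ((n + 1) :: u) 0 - ps (m :: v) 0) *
        q ((n + 1) :: u) * q (m :: v) * (E' / (W - m)) = 1
      rw [← mul_div_assoc, div_eq_one_iff_eq hg.ne', pow_succ]
      linarith
    · intro a ha
      rw [List.mem_singleton] at ha
      rw [ha]
      push_cast
      linarith
    · intro a ha
      rw [List.mem_singleton] at ha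
      rw [ha]
      linarith
  · -- two digits for the first continued fraction
    rw [not_le] at hc
    have hE0 : 0 < E := by linarith
    have k1 := add_digit (x := x) hu hv (by linarith) _ rfl key (a := n) hn3
    rw [← hY] at k1
    have hu1 : ∀ b ∈ n :: u, 1 ≤ b := cons_all hu hn3
    obtain ⟨h5, h6⟩ := q_bounds hu1
    have hs0 : (-1 : ℝ) ^ u.length ≠ 0 := by
      intro h15
      rw [h15] at hs2
      norm_num at hs2
    have hf' : 0 < f := by
      rcases lt_or_eq_of_le hf0 with hlt | heq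
      · exact hlt
      · exfalso
        have h7 : (n : ℝ) - Y = 0 := by linarith
        rw [h7] at k1
        have h13 := ne_of_irrational hx (n :: u) v
        have : (-1) ^ u.length * (x - ps (n :: u) 0 - ps v 0) * q (n :: u) * q v * E ≠ 0 := by
          have h16 : q (n :: u) ≠ 0 := by linarith
          have h17 : q v ≠ 0 := by linarith
          have h18 : E ≠ 0 := by linarith
          positivity
        exact this k1
    have k2 : -(-1) ^ u.length * (x - ps (n :: u) 0 - ps v 0) * q (n :: u) * q v * (E / f) =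
        1 := by
      rw [← mul_div_assoc, div_eq_one_iff_eq hf'.ne']
      linarith
    have hq1 : q (n :: u) = E * q v - f * q u := by
      rw [q_cons]
      nlinarith
    have hq2 : q v ≤ q (n :: u) := by
      rw [hq1]
      nlinarith
    obtain ⟨W, hW⟩ : ∃ W : ℝ, W = (E / f * q v - r (n :: u)) / q (n :: u) := ⟨_, rfl⟩
    have hWf : W = 1 / f := by
      rw [hW, r_cons, hq1]
      have : E * q v - f * q u ≠ 0 := by
        rw [← hq1]
        linarith
      field_simp
    have hW1 : E < W := by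
      rw [hWf, lt_div_iff₀ hf']
      rw [lt_div_iff₀ hE0] at hc
      linarith
    obtain ⟨m, hm⟩ : ∃ m : ℕ, m = ⌊W⌋₊ := ⟨_, rfl⟩
    have hm1 : (m : ℝ) ≤ W := by
      rw [hm]
      exact Nat.floor_le (by linarith)
    have hm2 : W < m + 1 := by
      rw [hm]
      exact Nat.lt_floor_add_one W
    have hm3 : 1 ≤ m := by
      have : (1 : ℝ) < m := by linarith
      exact_mod_cast this.le
    have k4 := add_digit (x := x) hu1 hv (by positivity) (-(-1) ^ u.length)
      (by rw [List.length_cons, pow_succ]; ring) k2 (a := m) hm3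
    rw [← hW] at k4
    have hu2 : ∀ b ∈ m :: n :: u, 1 ≤ b := cons_all hu1 hm3
    obtain ⟨h11, h12⟩ := q_bounds hu2
    have hg : 0 < W - m := by
      rcases lt_or_eq_of_le hm1 with hlt | heq
      · linarith
      · exfalso
        rw [heq, sub_self] at k4
        have h13 := ne_of_irrational hx (m :: n :: u) v
        have : -(-1) ^ u.length * (x - ps (m :: n :: u) 0 - ps v 0) * q (m :: n :: u) *
            q v * (E / f) ≠ 0 := by
          have h16 : q (m :: n :: u) ≠ 0 := by linarith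
          have h17 : q v ≠ 0 := by linarith
          have h18 : E / f ≠ 0 := by positivity
          have h19 : -(-1 : ℝ) ^ u.length ≠ 0 := neg_ne_zero.2 hs0
          positivity
        exact this k4
    have hEf : E * E ≤ E / f := by
      rw [le_div_iff₀ hf']
      rw [lt_div_iff₀ hE0] at hc
      nlinarith
    have hE'' : E / f ≤ E / f / (W - m) := by
      rw [le_div_iff₀ hg]
      have : 0 < E / f := by positivity
      nlinarith
    refine ⟨[m, n], [], E / f / (W - m), ⟨hu2, hv, ?_, by nlinarith, ?_⟩, by nlinarith, by simp,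
      ?_, by simp, Or.inr ?_⟩
    · change (-1 : ℝ) ^ (u.length + 1 + 1) = (-1) ^ v.length
      rw [pow_succ, pow_succ, par]
      ring
    · change (-1) ^ (u.length + 1 + 1) * (x - ps (m :: n :: u) 0 - ps v 0) *
        q (m :: n :: u) * q v * (E / f / (W - m)) = 1
      rw [← mul_div_assoc, div_eq_one_iff_eq hg.ne', pow_succ, pow_succ]
      linarith
    · intro a ha
      rcases List.mem_cons.1 ha with rfl | ha
      · linarith
      · rw [List.mem_singleton] at ha
        rw [ha]
        linarith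
    · change q v ≤ q (m :: n :: u)
      rw [q_cons m]
      have : (1 : ℝ) ≤ m := by exact_mod_cast hm3
      have h20 := r_nonneg (n :: u)
      nlinarith

theorem full_step {x : ℝ} (hx : Irrational x) {u v : List ℕ} {E : ℝ} (h : Same x u v E) :
    ∃ (z y : List ℕ) (E' : ℝ), Same x (z ++ u) (y ++ v) E' ∧ E + 1 ≤ E' ∧
      z ≠ [] ∧ y ≠ [] ∧ (∀ a ∈ z, E - 2 ≤ (a : ℝ)) ∧ (∀ a ∈ y, E - 2 ≤ (a : ℝ)) := by
  have main : ∀ {u v : List ℕ} {E : ℝ}, Same x u v E → q u ≤ q v →
      ∃ (z y : List ℕ) (E' : ℝ), Same x (z ++ u) (y ++ v) E' ∧ E + 1 ≤ E' ∧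
      z ≠ [] ∧ y ≠ [] ∧ (∀ a ∈ z, E - 2 ≤ (a : ℝ)) ∧ (∀ a ∈ y, E - 2 ≤ (a : ℝ)) := by
    intro u v E h hq
    obtain ⟨z, y, E', h1, h2, h3, h4, h5, h6⟩ := half_step hx h hq
    by_cases hy : y = []
    · have h7 : q v ≤ q (z ++ u) := h6.resolve_left (fun h => h hy)
      rw [hy, List.nil_append] at h1
      obtain ⟨z', y', E'', g1, g2, g3, g4, g5, g6⟩ := half_step hx h1.symm h7
      refine ⟨y' ++ z, z', E'', ?_, by linarith, ?_, g3, ?_, ?_⟩
      · rw [List.append_assoc]
        exact g1.symm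
      · intro h8
        exact h3 (List.append_eq_nil_iff.1 h8).2
      · intro a ha
        rcases List.mem_append.1 ha with ha | ha
        · have := g5 a ha
          linarith
        · exact h4 a ha
      · intro a ha
        have := g4 a ha
        linarith
    · exact ⟨z, y, E', h1, h2, h3, hy, h4, h5⟩
  rcases le_total (q u) (q v) with hq | hq
  · exact main h hq
  · obtain ⟨z, y, E', h1, h2, h3, h4, h5, h6⟩ := main h.symm hq
    exact ⟨y, z, E', h1.symm, h2, h4, h3, h6, h5⟩

end Q54.GG
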